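import Mathlib
import Pool.Graph.R_pool_sql_team_39128cda.H.MP_0d317a_lc.C
import Pool.Graph.R_seed8.Helper639.ForceCH

/-!
# MP_8fdcc7_lc, Q2: consistently `(U, ⊇)` is Tukey-top while `(U, ⊇*)` is not

First part: some notion of forcing preserves `ω₁` and forces Jensen's principle `◊` (the forcing
language is the one of `Pool.Agent.Helper639.ForceCH`).
Second part: `◊` gives nonprincipal ultrafilters `V` and `W` on `ω`, neither of them Tukey-top,
whose Fubini product `U` has `(U, ⊇)` Tukey-top and `(U, ⊇*)` not Tukey-top. In particular `U` is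
not a p-point and `(U, ⊇*) <_T (U, ⊇)`.
-/

set_option autoImplicit false

namespace Pool.Agent.Results.MP_8fdcc7_lc.ConsistentTopGap

open Set Cardinal Order
open Pool.Agent.Helper639.ForceCH (Om OmegaOnePreserved DiamondHolds)

/-- `C` is a closed unbounded subset of `ω₁` (the sentence named by `IsClubName`). -/
def IsClubSet (C : Om → Prop) : Prop :=
  (∀ a : Om, ∃ b : Om, a < b ∧ C b) ∧
    ∀ a : Om, (∃ b, b < a) → (∀ b : Om, b < a → ∃ c : Om, (b < c ∧ c < a) ∧ C c) → C a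

/-- Jensen's principle `◊`: the sentence which `DiamondHolds P` says is forced, evaluated in the
universe. -/
def Diamond : Prop :=
  ∃ A : Om → Om → Prop, ∀ S : Om → Prop, ∀ C : Om → Prop,
    IsClubSet C → ∃ a : Om, C a ∧ ∀ b : Om, b < a → (S b ↔ A a b)

/-- `r` is Tukey below `s`: some map sends unbounded sets to unbounded sets. -/
def TukeyLE {α β : Type} (r : α → α → Prop) (s : β → β → Prop) : Prop :=
  ∃ f : α → β, ∀ S : Set α, (¬ ∃ a, ∀ x ∈ S, r x a) → ¬ ∃ b, ∀ x ∈ S, s (f x) b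

/-- The order of `(U, ⊇)`: `B` is above `A` if `A ⊇ B`. -/
def Incl (U : Ultrafilter ℕ) (A B : {A : Set ℕ // A ∈ U}) : Prop := A.1 ⊇ B.1

/-- The order of `(U, ⊇*)`: `B` is above `A` if `B \ A` is finite. -/
def AlmostIncl (U : Ultrafilter ℕ) (A B : {A : Set ℕ // A ∈ U}) : Prop := (B.1 \ A.1).Finite

/-- A directed order is Tukey-top if the inclusion of the finite sets of reals is Tukey below it. -/
def TukeyTop {β : Type} (s : β → β → Prop) : Prop :=
  TukeyLE (fun A B : Finset ℝ => A ⊆ B) s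

/-- Nonprincipal ultrafilters on `ω`. -/
def Nonprincipal (U : Ultrafilter ℕ) : Prop := ∀ n : ℕ, {n} ∉ U

/-- Every countable subfamily of `U` has a pseudo-intersection in `U`. -/
def IsPPoint (U : Ultrafilter ℕ) : Prop :=
  ∀ 𝒜 : Set (Set ℕ), 𝒜.Countable → (∀ A ∈ 𝒜, A ∈ U) → ∃ B ∈ U, ∀ A ∈ 𝒜, (B \ A).Finite

/-- `U` is the Fubini product of `V` and `W`, moved to `ω` by the pairing bijection. -/
def IsFubiniProduct (U V W : Ultrafilter ℕ) : Prop :=
  ∀ A : Set ℕ, A ∈ U ↔ {n | {m | Nat.pair n m ∈ A} ∈ W} ∈ V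

theorem dia_of_diamond (h : Diamond) : Pool.Agent.H.MP_2e4b78_lc.Dia := by
  obtain ⟨A, hA⟩ := h
  have key : ∀ o : Ordinal.{0}, o = (ℵ₁ : Cardinal.{0}).ord → ∀ (_ : NoMaxOrder o.ToType),
      (∃ A : o.ToType → o.ToType → Prop, ∀ S : o.ToType → Prop, ∀ C : o.ToType → Prop,
        ((∀ a : o.ToType, ∃ b : o.ToType, a < b ∧ C b) ∧
          ∀ a : o.ToType, (∃ b, b < a) →
            (∀ b : o.ToType, b < a → ∃ c : o.ToType, (b < c ∧ c < a) ∧ C c) → C a) →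
          ∃ a : o.ToType, C a ∧ ∀ b : o.ToType, b < a → (S b ↔ A a b)) →
      ∃ D : o.ToType → Set o.ToType, ∀ Y : Set o.ToType,
        IsStationary {δ | Y ∩ Iio δ = D δ} := by
    intro o _ _ ⟨A, hA⟩
    refine ⟨fun a => {b | b < a ∧ A a b}, fun Y C hC => ?_⟩
    have c1 : ∀ a : o.ToType, ∃ b : o.ToType, a < b ∧ b ∈ C := fun a => by
      obtain ⟨a', ha'⟩ := exists_gt a
      obtain ⟨b, hb, hb'⟩ := hC.isCofinal a'
      exact ⟨b, ha'.trans_le hb', hb⟩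
    have c2 : ∀ a : o.ToType, (∃ b, b < a) →
        (∀ b : o.ToType, b < a → ∃ c : o.ToType, (b < c ∧ c < a) ∧ c ∈ C) → a ∈ C := by
      intro a h3 h4
      obtain ⟨b0, hb0⟩ := h3
      obtain ⟨c0, hc0, hc0'⟩ := h4 b0 hb0
      refine hC.isLUB_mem (t := {c | c ∈ C ∧ c < a}) (fun c hc => hc.1) ⟨c0, hc0', hc0.2⟩
        ⟨fun c hc => hc.2.le, fun b hb => ?_⟩
      by_contra h5
      obtain ⟨c, hc, hc'⟩ := h4 b (not_le.1 h5)
      exact absurd (hb ⟨hc', hc.2⟩) (not_le.2 hc.1)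
    obtain ⟨a, h1, h2⟩ := hA (fun b => b ∈ Y) (fun b => b ∈ C) ⟨c1, c2⟩
    refine ⟨a, ?_, h1⟩
    ext b
    simp only [mem_inter_iff, mem_Iio, Set.mem_ofPred_eq]
    exact ⟨fun h => ⟨h.2, (h2 b h.2).1 h.1⟩, fun h => ⟨(h2 b h.1).2 h.2, h.1⟩⟩
  have h1 : (Ordinal.omega 1 : Ordinal.{0}) = (ℵ₁ : Cardinal.{0}).ord := by simp
  have h2 : NoMaxOrder (Ordinal.omega 1 : Ordinal.{0}).ToType := by
    rw [h1]
    infer_instance
  refine key _ h1 h2 ?_
  rw [h1]
  exact ⟨A, hA⟩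

/-- **Q2 has a positive answer: it is consistent that some `U` has `(U, ⊇)` Tukey-top and
`(U, ⊇*)` not Tukey-top.** -/
theorem result :
    (∃ (P : Type) (_ : Preorder P), Nonempty P ∧
      ∀ p : P, p ∈ OmegaOnePreserved P ∧ p ∈ DiamondHolds P) ∧
    (Diamond → ∃ V W U : Ultrafilter ℕ,
      Nonprincipal V ∧ Nonprincipal W ∧ ¬ TukeyTop (Incl V) ∧ ¬ TukeyTop (Incl W) ∧
      IsFubiniProduct U V W ∧ Nonprincipal U ∧
      TukeyTop (Incl U) ∧ ¬ TukeyTop (AlmostIncl U) ∧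
      ¬ IsPPoint U ∧ TukeyLE (AlmostIncl U) (Incl U) ∧ ¬ TukeyLE (Incl U) (AlmostIncl U)) := by
  refine ⟨?_, fun hd => ?_⟩
  · obtain ⟨P, i, hn, h⟩ := Pool.Agent.Helper639.ForceCH.exists_forcing
    exact ⟨P, i, hn, fun p => ⟨(h p).1, (h p).2.1⟩⟩
  · obtain ⟨V, W, h1, h2, h3, h4, h5, h6, h7, h8⟩ :=
      Pool.Agent.H.MP_0d317a_lc.main (dia_of_diamond hd)
    have tk : ∀ {α β : Type} {r : α → α → Prop} {s : β → β → Prop},
        TukeyLE r s ↔ Pool.Agent.H.MP_0d317a_lc.Tk r s := by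
      intro α β r s
      simp only [TukeyLE, Pool.Agent.H.MP_0d317a_lc.Tk, forall_mem_image]
    have trans : ∀ {α β γ : Type} {r : α → α → Prop} {s : β → β → Prop} {t : γ → γ → Prop},
        TukeyLE r s → TukeyLE s t → TukeyLE r t := by
      rintro α β γ r s t ⟨f, hf⟩ ⟨g, hg⟩
      refine ⟨fun x => g (f x), fun S hS => ?_⟩
      have h9 := hg (f '' S) (by simpa only [forall_mem_image] using hf S hS)
      rintro ⟨b, hb⟩
      exact h9 ⟨b, by rintro _ ⟨x, hx, rfl⟩; exact hb x hx⟩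
    refine ⟨V, W, Pool.Agent.H.MP_0d317a_lc.Fub V W, h1, h2, fun h => h3 (tk.1 h),
      fun h => h4 (tk.1 h), fun A => Pool.Agent.H.MP_0d317a_lc.mf, h7, tk.2 h5,
      fun h => h6 (tk.1 h), fun h => h8 fun A hA => ?_, ⟨id, fun S hS => ?_⟩, fun h => ?_⟩
    · obtain ⟨B, hB, hB'⟩ := h (range A) (countable_range A) (by rintro _ ⟨n, rfl⟩; exact hA n)
      exact ⟨B, hB, fun n => hB' _ (mem_range_self n)⟩
    · rintro ⟨b, hb⟩
      refine hS ⟨b, fun x hx => ?_⟩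
      have h9 : b.1 ⊆ x.1 := hb x hx
      have h10 : b.1 \ x.1 = ∅ := Set.sdiff_eq_empty.2 h9
      simp only [AlmostIncl, h10, finite_empty]
    · exact h6 (tk.1 (trans (tk.2 h5) h))

end Pool.Agent.Results.MP_8fdcc7_lc.ConsistentTopGap
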